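import Pool.Agent.Q279.Col.TwoEven

/-!
# The 2-adic valuation of `c_{2k}(4n) - c_{2k}(n)` (MP_918176_nt, Q1)

`S 2 m n` (file `Pool.Agent.Q279.Col.Defs`) is the coefficient `c_m(n)` of `x ^ n` in the power
series `(1 - x)^{-m} ∏_{i ≥ 0} (1 - x^{2^i})^{-m}` over `ℤ` (the infinite product converges
coefficientwise, see `Q279.Col.multipliable_pow`; its inverse is characterised by
`Q279.Col.den_mul_H`).
-/

set_option autoImplicit false

namespace Pool.Agent.Results.MP_918176_nt.EvenCase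

open Q279.Col

/-- For all `k, n ≥ 1`, `ν₂(c_{2k}(4n) - c_{2k}(n)) = ν₂(n) + 2 ν₂(k) + 3`. Here
`emultiplicity 2 N` is the exponent of the largest power of `2` dividing `N` (`⊤` if `N = 0`). -/
theorem result (k n : ℕ) (hk : 1 ≤ k) (hn : 1 ≤ n) :
    emultiplicity (2 : ℤ) (S 2 (2 * k) (4 * n) - S 2 (2 * k) n) =
      ((padicValNat 2 n + 2 * padicValNat 2 k + 3 : ℕ) : ℕ∞) :=
  Two.emult_even k n hk hn

end Pool.Agent.Results.MP_918176_nt.EvenCase
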