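import Pool.Agent.Q279.Col.TwoOdd2

/-!
# The 2-adic valuation of `c_m(4n) - c_m(n)` for odd `m` (MP_918176_nt, Q2)

`S 2 m n` (file `Pool.Agent.Q279.Col.Defs`) is the coefficient `c_m(n)` of `x ^ n` in the power
series `(1 - x)^{-m} ∏_{i ≥ 0} (1 - x^{2^i})^{-m}` over `ℤ` (the infinite product converges
coefficientwise, see `Q279.Col.multipliable_pow`; its inverse is characterised by
`Q279.Col.den_mul_H`), and `D m n = c_m(4n) - c_m(n)`.
-/

set_option autoImplicit false

namespace Pool.Agent.Results.MP_918176_nt.OddCase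

open Q279.Col

/-- `c_m(4n) - c_m(n)` -/
noncomputable def D (m n : ℕ) : ℤ := S 2 m (4 * n) - S 2 m n

/-- Both lower bounds of Q2 hold for all `k ≥ 0` and `n ≥ 1`; in the first one equality holds for
infinitely many `n`, for every `k`; in the second one equality holds for infinitely many `n` if and
only if `k` is not congruent to `3` modulo `4`; and if `k ≡ 3 (mod 4)` (for example for
`c_15`) then even `ν₂(c_{4k+3}(4n) - c_{4k+3}(n)) ≥ ν₂(n) + 7` for all `n ≥ 1`. In particular the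
assertion of Q2 is false. -/
theorem result :
    (∀ k n : ℕ, 1 ≤ n →
      ((padicValNat 2 n + 3 : ℕ) : ℕ∞) ≤ emultiplicity (2 : ℤ) (D (4 * k + 1) n) ∧
      ((padicValNat 2 n + 6 : ℕ) : ℕ∞) ≤ emultiplicity (2 : ℤ) (D (4 * k + 3) n)) ∧
    (∀ k : ℕ, {n : ℕ | 1 ≤ n ∧ emultiplicity (2 : ℤ) (D (4 * k + 1) n) =
      ((padicValNat 2 n + 3 : ℕ) : ℕ∞)}.Infinite) ∧
    (∀ k : ℕ, {n : ℕ | 1 ≤ n ∧ emultiplicity (2 : ℤ) (D (4 * k + 3) n) =
      ((padicValNat 2 n + 6 : ℕ) : ℕ∞)}.Infinite ↔ k % 4 ≠ 3) ∧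
    (∀ k n : ℕ, k % 4 = 3 → 1 ≤ n →
      ((padicValNat 2 n + 7 : ℕ) : ℕ∞) ≤ emultiplicity (2 : ℤ) (D (4 * k + 3) n)) := by
  have h7 : ∀ k n : ℕ, k % 4 = 3 → 1 ≤ n →
      ((padicValNat 2 n + 7 : ℕ) : ℕ∞) ≤ emultiplicity (2 : ℤ) (D (4 * k + 3) n) := by
    intro k n hk hn
    exact pow_dvd_iff_le_emultiplicity.1 (Two.D_fifteen k n hk hn)
  refine ⟨?_, ?_, ?_, h7⟩
  · intro k n hn
    refine ⟨pow_dvd_iff_le_emultiplicity.1 (Two.D_one_ge k n hn), ?_⟩
    rcases Nat.even_or_odd' k with ⟨j, hj | hj⟩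
    · exact pow_dvd_iff_le_emultiplicity.1 (Two.D_three_ge k n (by omega) hn)
    · by_cases h1 : k % 4 = 1
      · exact pow_dvd_iff_le_emultiplicity.1 (Two.D_seven_ge k n h1 hn)
      · refine le_trans ?_ (h7 k n (by omega) hn)
        exact_mod_cast Nat.add_le_add_left (by norm_num) _
  · intro k
    refine Set.Infinite.mono ?_ (Two.infinite_mod 2 1 (by norm_num))
    intro n hn
    simp only [Set.mem_setOf_eq] at hn
    exact ⟨by omega, Two.D_one_eq k n (by omega)⟩
  · intro k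
    constructor
    · intro hinf hk
      obtain ⟨n, hn1, hn2⟩ := hinf.nonempty
      have h := h7 k n hk hn1
      rw [hn2] at h
      have h' : padicValNat 2 n + 7 ≤ padicValNat 2 n + 6 := by exact_mod_cast h
      omega
    · intro hk
      rcases Nat.even_or_odd' k with ⟨j, hj | hj⟩
      · refine Set.Infinite.mono ?_ (Two.infinite_mod 4 2 (by norm_num))
        intro n hn
        simp only [Set.mem_setOf_eq] at hn
        exact ⟨by omega, Two.D_three_eq k n (by omega) (by omega)⟩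
      · refine Set.Infinite.mono ?_ (Two.infinite_mod 2 1 (by norm_num))
        intro n hn
        simp only [Set.mem_setOf_eq] at hn
        exact ⟨by omega, Two.D_seven_eq k n (by omega) (by omega)⟩

end Pool.Agent.Results.MP_918176_nt.OddCase
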